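import Pool.Agent.Helper94.Wit.Neck

/-! # MP_2b6189_al: the structure `CentreData` is inhabited for every `n ≥ 1`

`centreData n` is the datum of the Drinfeld centre of the category of `Z/n`-graded vector spaces (for `n = 2` the toric code):
`n ^ 2` simple objects `(a, s)`, twists `exp (2 π i a s / n)`, level `n`. -/

set_option autoImplicit false

namespace Pool.Agent.Helper94.Wit

open Matrix ComplexConjugate Pool.Agent.Helper94.YF Pool.Agent.Helper94.YG

/-- The datum of the Drinfeld centre of the category of `Z/n`-graded vector spaces. -/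
noncomputable def centreData (n : ℕ) [NeZero n] : CentreData (J n) where
  o := 0
  st := fun i => -i
  n := n
  n_pos := Nat.pos_of_ne_zero (NeZero.ne n)
  d := fun _ => 1
  d_pos := fun _ => one_pos
  d_o := rfl
  N := Nf
  L := n
  L_pos := Nat.pos_of_ne_zero (NeZero.ne n)
  th := th
  th_o := by
    unfold th
    rw [Prod.fst_zero, zero_mul, e_zero]
  th_order := by
    intro k h
    have h1 := h (1, 1)
    unfold th at h1
    rw [← e_nsmul, mul_one, mul_one, ← e_zero (n := n)] at h1
    exact (ZMod.natCast_eq_zero_iff k n).1 (e_inj h1)
  rho := rho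
  unitary := rho_unitary
  rho_T := rho_T
  s_o := by
    intro i
    rw [rho_S, Prod.fst_zero, Prod.snd_zero, zero_mul, mul_zero, add_zero, neg_zero, e_zero,
      Nat.cast_one, mul_one, one_div]
  s_symm := by
    intro i j
    rw [rho_S, rho_S, add_comm]
  s_dual := by
    intro i j
    rw [rho_S, rho_S, map_mul, map_inv₀, map_natCast, conj_e]
    congr 2
    simp only [Prod.fst_neg, Prod.snd_neg]
    ring
  verlinde := verlinde
  cauchy := fun _ _ h => h
  borel := borel
  galois := galois
  indicator := indicator
  indicatorZ := indicatorZ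
  kap := kapF
  kap_o := if_pos rfl
  kap_inv := kap_inv
  indicatorV := fun i j V k _ => indicatorV i j V k

theorem centreData_n (n : ℕ) [NeZero n] : (centreData n).n = n := rfl

/-- **The data of dimension `n` exist for every `n ≥ 1`.** -/
theorem exists_centreData (n : ℕ) (hn : 0 < n) :
    ∃ (I : Type) (_ : Fintype I) (_ : DecidableEq I) (Z : CentreData I), Z.n = n := by
  have : NeZero n := ⟨hn.ne'⟩
  exact ⟨J n, inferInstance, inferInstance, centreData n, rfl⟩

end Pool.Agent.Helper94.Wit
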