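import Pool.Agent.Helper94.YG.Defs

/-! # MP_2b6189_al: a witness for `CentreData`, the representation

The Drinfeld centre of the category of `Z/n`-graded vector spaces. -/

set_option autoImplicit false

namespace Pool.Agent.Helper94.Wit

open Matrix ComplexConjugate Pool.Agent.Helper94.YF

variable {n : ℕ} [NeZero n]

/-- the standard character of `Z/n` -/
noncomputable def e (t : ZMod n) : ℂ := ZMod.stdAddChar t

theorem e_zero : e (0 : ZMod n) = 1 := AddChar.map_zero_eq_one _

theorem e_add (s t : ZMod n) : e (s + t) = e s * e t := AddChar.map_add_eq_mul _ s t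

theorem e_neg (t : ZMod n) : e (-t) = conj (e t) := AddChar.map_neg_eq_conj _ t

theorem conj_e (t : ZMod n) : conj (e t) = e (-t) := (e_neg t).symm

theorem e_nsmul (l : ℕ) (t : ZMod n) : e ((l : ZMod n) * t) = e t ^ l := by
  rw [← nsmul_eq_mul]
  exact AddChar.map_nsmul_eq_pow _ l t

theorem e_inj {s t : ZMod n} (h : e s = e t) : s = t := ZMod.injective_stdAddChar h

theorem e_ne (t : ZMod n) : e t ≠ 0 := by
  intro h
  have h1 : e (t + -t) = e t * e (-t) := e_add t (-t)
  rw [add_neg_cancel, e_zero, h, zero_mul] at h1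
  exact one_ne_zero h1

theorem e_sum (t : ZMod n) : ∑ y : ZMod n, e (y * t) = if t = 0 then (n : ℂ) else 0 := by
  have h := AddChar.sum_mulShift t (ZMod.isPrimitive_stdAddChar n)
  rw [ZMod.card] at h
  exact_mod_cast h

/-- the simple objects -/
abbrev J (n : ℕ) := ZMod n × ZMod n

/-- the action on pairs -/
def act (g : SL n) (p : J n) : J n :=
  (g 0 0 * p.1 + g 0 1 * p.2, g 1 0 * p.1 + g 1 1 * p.2)

omit [NeZero n] in
theorem act_mul (g h : SL n) (p : J n) : act (g * h) p = act g (act h p) := by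
  unfold act
  have h1 : ∀ i j, (g * h) i j = g i 0 * h 0 j + g i 1 * h 1 j := by
    intro i j
    have : (g * h) i j = ((g : Matrix (Fin 2) (Fin 2) (ZMod n)) * h) i j := rfl
    rw [this, Matrix.mul_apply, Fin.sum_univ_two]
  rw [h1, h1, h1, h1]
  ext <;> simp only <;> ring

omit [NeZero n] in
theorem act_one (p : J n) : act (1 : SL n) p = p := by
  unfold act
  ext <;> simp

/-- the change of bases -/
noncomputable def B : Matrix (J n) (J n) ℂ := fun p i => if p.2 = i.1 then e (-(i.2 * p.1)) else 0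

/-- the permutation matrix -/
noncomputable def P (g : SL n) : Matrix (J n) (J n) ℂ := fun p q => if p = act g q then 1 else 0

theorem B_mul : (B : Matrix (J n) (J n) ℂ) * Bᴴ = (n : ℂ) • 1 := by
  ext p q
  rw [Matrix.mul_apply, Matrix.smul_apply, Matrix.one_apply, Fintype.sum_prod_type]
  have h1 : ∀ a s : ZMod n, B p (a, s) * (Bᴴ : Matrix (J n) (J n) ℂ) (a, s) q =
      if p.2 = a then (if q.2 = a then e (s * (q.1 - p.1)) else 0) else 0 := by
    intro a s
    rw [Matrix.conjTranspose_apply, ← starRingEnd_apply]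
    unfold B
    split_ifs with h1 h2
    · rw [conj_e, ← e_add]
      congr 1
      ring
    · rw [map_zero, mul_zero]
    · rw [zero_mul]
    · rw [zero_mul]
  simp only [h1]
  rw [Finset.sum_comm]
  have h2 : ∀ s : ZMod n, ∑ a : ZMod n, (if p.2 = a then
      (if q.2 = a then e (s * (q.1 - p.1)) else 0) else 0) =
      if q.2 = p.2 then e (s * (q.1 - p.1)) else 0 := by
    intro s
    rw [Finset.sum_ite_eq Finset.univ p.2, if_pos (Finset.mem_univ _)]
  simp only [h2]
  by_cases h3 : q.2 = p.2
  · simp only [if_pos h3]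
    rw [e_sum]
    by_cases h4 : q.1 - p.1 = 0
    · have h5 : p = q := Prod.ext (sub_eq_zero.1 h4).symm h3.symm
      rw [if_pos h4, if_pos h5, smul_eq_mul, mul_one]
    · have h5 : p ≠ q := by
        rintro rfl
        exact h4 (sub_self _)
      rw [if_neg h4, if_neg h5, smul_zero]
  · simp only [if_neg h3]
    have h5 : p ≠ q := by
      rintro rfl
      exact h3 rfl
    rw [if_neg h5, smul_zero, Finset.sum_const_zero]

theorem n_ne : (n : ℂ) ≠ 0 := Nat.cast_ne_zero.2 (NeZero.ne n)

theorem B_mul' : (Bᴴ : Matrix (J n) (J n) ℂ) * B = (n : ℂ) • 1 := by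
  have h1 : ((n : ℂ)⁻¹ • (B : Matrix (J n) (J n) ℂ)) * Bᴴ = 1 := by
    rw [smul_mul_assoc, B_mul, smul_smul, inv_mul_cancel₀ n_ne, one_smul]
  have h2 := mul_eq_one_comm.1 h1
  rw [mul_smul_comm] at h2
  rw [← h2, smul_smul, mul_inv_cancel₀ n_ne, one_smul]

omit [NeZero n] in
theorem P_mul [NeZero n] (g h : SL n) : P (g * h) = P g * P h := by
  ext p q
  rw [Matrix.mul_apply]
  have h1 : ∀ r : J n, P g p r * P h r q =
      if r = act h q then (if p = act g (act h q) then (1 : ℂ) else 0) else 0 := by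
    intro r
    unfold P
    by_cases h1 : r = act h q
    · subst h1
      rw [if_pos rfl, if_pos rfl, mul_one]
    · rw [if_neg h1, if_neg h1, mul_zero]
  simp only [h1]
  rw [Finset.sum_ite_eq' Finset.univ (act h q), if_pos (Finset.mem_univ _)]
  unfold P
  rw [act_mul]

omit [NeZero n] in
theorem P_one : P (1 : SL n) = 1 := by
  ext p q
  unfold P
  rw [act_one, Matrix.one_apply]

/-- the representation -/
noncomputable def rhoF (g : SL n) : Matrix (J n) (J n) ℂ := (n : ℂ)⁻¹ • (Bᴴ * P g * B)

theorem rhoF_one : rhoF (1 : SL n) = 1 := by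
  unfold rhoF
  rw [P_one, mul_one, B_mul', smul_smul, inv_mul_cancel₀ n_ne, one_smul]

theorem rhoF_mul (g h : SL n) : rhoF (g * h) = rhoF g * rhoF h := by
  unfold rhoF
  rw [smul_mul_smul_comm, P_mul]
  have h1 : Bᴴ * P g * B * (Bᴴ * P h * B) = (n : ℂ) • (Bᴴ * (P g * P h) * B) := by
    calc Bᴴ * P g * B * (Bᴴ * P h * B) = Bᴴ * P g * (B * Bᴴ) * P h * B := by
          simp only [Matrix.mul_assoc]
      _ = (n : ℂ) • (Bᴴ * (P g * P h) * B) := by
          rw [B_mul]
          simp only [Matrix.mul_smul, Matrix.smul_mul, mul_one, Matrix.mul_assoc]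
  rw [h1, smul_smul]
  congr 1
  field_simp [n_ne (n := n)]

/-- the representation -/
noncomputable def rho : SL n →* Matrix (J n) (J n) ℂ where
  toFun := rhoF
  map_one' := rhoF_one
  map_mul' := rhoF_mul

/-- the entries -/
theorem rho_apply (g : SL n) (i j : J n) : rho g i j = (n : ℂ)⁻¹ * ∑ y : ZMod n,
    if g 1 0 * y + g 1 1 * j.1 = i.1 then e (i.2 * (g 0 0 * y + g 0 1 * j.1) - j.2 * y) else 0 := by
  change ((n : ℂ)⁻¹ • (Bᴴ * P g * B) : Matrix (J n) (J n) ℂ) i j = _
  rw [Matrix.smul_apply, smul_eq_mul]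
  congr 1
  rw [Matrix.mul_apply]
  have h1 : ∀ q : J n, (Bᴴ * P g : Matrix (J n) (J n) ℂ) i q = conj (B (act g q) i) := by
    intro q
    rw [Matrix.mul_apply]
    have h2 : ∀ p : J n, (Bᴴ : Matrix (J n) (J n) ℂ) i p * P g p q =
        if p = act g q then conj (B p i) else 0 := by
      intro p
      rw [Matrix.conjTranspose_apply, ← starRingEnd_apply]
      unfold P
      split_ifs
      · rw [mul_one]
      · rw [mul_zero]
    simp only [h2]
    rw [Finset.sum_ite_eq' Finset.univ (act g q), if_pos (Finset.mem_univ _)]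
  simp only [h1]
  rw [Fintype.sum_prod_type]
  refine Finset.sum_congr rfl fun y _ => ?_
  have h3 : ∀ x : ZMod n, conj (B (act g (y, x)) i) * B (y, x) j =
      if x = j.1 then (if g 1 0 * y + g 1 1 * x = i.1 then
        e (i.2 * (g 0 0 * y + g 0 1 * x) - j.2 * y) else 0) else 0 := by
    intro x
    unfold B act
    simp only
    split_ifs with h4 h5 h5
    · rw [conj_e, ← e_add]
      congr 1
      ring
    · rw [mul_zero]
    · rw [map_zero, zero_mul]
    · rw [mul_zero]
  simp only [h3]
  rw [Finset.sum_ite_eq' Finset.univ j.1, if_pos (Finset.mem_univ _)]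

end Pool.Agent.Helper94.Wit
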