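import Pool.Agent.Helper94.Wit.Base

/-! # MP_2b6189_al: a witness for `CentreData`, the fields except the indicators of first kind -/

set_option autoImplicit false

namespace Pool.Agent.Helper94.Wit

open Matrix ComplexConjugate Pool.Agent.Helper94.YF

variable {n : ℕ} [NeZero n]

omit [NeZero n] in
theorem act_inj (g : SL n) {p q : J n} (h : act g p = act g q) : p = q := by
  have h1 := congrArg (act g⁻¹) h
  rwa [← act_mul, ← act_mul, inv_mul_cancel, act_one, act_one] at h1

omit [NeZero n] in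
theorem act_add (g : SL n) (p q : J n) : act g (p + q) = act g p + act g q := by
  unfold act
  ext <;> simp only [Prod.fst_add, Prod.snd_add] <;> ring

theorem P_unit (g : SL n) : (P g)ᴴ * P g = 1 := by
  ext p q
  rw [Matrix.mul_apply, Matrix.one_apply]
  have h1 : ∀ r : J n, (P g)ᴴ p r * P g r q =
      if r = act g q then (if p = q then (1 : ℂ) else 0) else 0 := by
    intro r
    rw [Matrix.conjTranspose_apply, ← starRingEnd_apply]
    unfold P
    by_cases h1 : r = act g q
    · subst h1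
      rw [if_pos rfl, if_pos rfl, mul_one]
      by_cases h2 : p = q
      · subst h2
        rw [if_pos rfl, if_pos rfl, map_one]
      · rw [if_neg h2, if_neg fun h => h2 (act_inj g h).symm, map_zero]
    · rw [if_neg h1, if_neg h1, mul_zero]
  simp only [h1]
  rw [Finset.sum_ite_eq' Finset.univ (act g q), if_pos (Finset.mem_univ _)]

theorem rho_eq (g : SL n) : rho g = (n : ℂ)⁻¹ • (Bᴴ * P g * B) := rfl

theorem rho_unitary (g : SL n) : (rho g)ᴴ * rho g = 1 := by
  rw [rho_eq, Matrix.conjTranspose_smul, Matrix.conjTranspose_mul, Matrix.conjTranspose_mul,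
    Matrix.conjTranspose_conjTranspose, smul_mul_smul_comm]
  have h1 : Bᴴ * ((P g)ᴴ * B) * (Bᴴ * P g * B) = ((n : ℂ) * n) • (1 : Matrix (J n) (J n) ℂ) := by
    calc Bᴴ * ((P g)ᴴ * B) * (Bᴴ * P g * B) = Bᴴ * (P g)ᴴ * (B * Bᴴ) * P g * B := by
          simp only [Matrix.mul_assoc]
      _ = (n : ℂ) • (Bᴴ * ((P g)ᴴ * P g) * B) := by
          rw [B_mul]
          simp only [Matrix.mul_smul, Matrix.smul_mul, mul_one, Matrix.mul_assoc]
      _ = ((n : ℂ) * n) • 1 := by
          rw [P_unit, mul_one, B_mul', smul_smul]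
  rw [h1, smul_smul, star_inv₀, star_natCast]
  have := n_ne (n := n)
  rw [show (n : ℂ)⁻¹ * (n : ℂ)⁻¹ * ((n : ℂ) * n) = 1 by field_simp, one_smul]

/-- monomial matrices on pairs -/
noncomputable def H (u τ : J n) : Matrix (J n) (J n) ℂ := fun p q =>
  if p = q + u then e (-(τ.1 * q.1 + τ.2 * q.2)) else 0

/-- monomial matrices on simple objects -/
noncomputable def K (u τ : J n) : Matrix (J n) (J n) ℂ := fun a b =>
  if a = b + (u.2, τ.1) then e ((τ.1 + b.2) * u.1 - τ.2 * b.1) else 0

theorem H_B (u τ : J n) : H u τ * B = B * K u τ := by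
  ext p b
  rw [Matrix.mul_apply, Matrix.mul_apply]
  have h1 : ∀ q : J n, H u τ p q * B q b = if q = p - u then
      (if p.2 - u.2 = b.1 then
        e (-(τ.1 * (p.1 - u.1) + τ.2 * (p.2 - u.2)) + -(b.2 * (p.1 - u.1))) else 0) else 0 := by
    intro q
    unfold H B
    by_cases h1 : q = p - u
    · subst h1
      rw [if_pos (sub_add_cancel p u).symm, if_pos rfl]
      simp only [Prod.fst_sub, Prod.snd_sub]
      split_ifs
      · rw [← e_add]
      · rw [mul_zero]
    · rw [if_neg h1, if_neg fun h => h1 (by rw [h, add_sub_cancel_right]), zero_mul]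
  have h2 : ∀ a : J n, B p a * K u τ a b = if a = b + (u.2, τ.1) then
      (if p.2 = b.1 + u.2 then
        e (-((b.2 + τ.1) * p.1) + ((τ.1 + b.2) * u.1 - τ.2 * b.1)) else 0) else 0 := by
    intro a
    unfold K B
    by_cases h1 : a = b + (u.2, τ.1)
    · subst h1
      rw [if_pos rfl, if_pos rfl]
      simp only [Prod.fst_add, Prod.snd_add]
      split_ifs
      · rw [← e_add]
      · rw [zero_mul]
    · rw [if_neg h1, if_neg h1, mul_zero]
  simp only [h1, h2]
  rw [Finset.sum_ite_eq' Finset.univ (p - u), if_pos (Finset.mem_univ _),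
    Finset.sum_ite_eq' Finset.univ (b + (u.2, τ.1)), if_pos (Finset.mem_univ _)]
  by_cases h3 : p.2 = b.1 + u.2
  · rw [if_pos (by rw [h3, add_sub_cancel_right]), if_pos h3, h3]
    congr 1
    ring
  · rw [if_neg fun h => h3 (by rw [← h, sub_add_cancel]), if_neg h3]

theorem H_P (g : SL n) (u' τ : J n) : H (act g u') τ * P g =
    P g * H u' (τ.1 * g 0 0 + τ.2 * g 1 0, τ.1 * g 0 1 + τ.2 * g 1 1) := by
  ext p q
  rw [Matrix.mul_apply, Matrix.mul_apply]
  have h1 : ∀ r : J n, H (act g u') τ p r * P g r q = if r = act g q then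
      (if p = act g q + act g u' then
        e (-(τ.1 * (act g q).1 + τ.2 * (act g q).2)) else 0) else 0 := by
    intro r
    unfold H P
    by_cases h1 : r = act g q
    · subst h1
      rw [if_pos rfl, if_pos rfl, mul_one]
    · rw [if_neg h1, if_neg h1, mul_zero]
  have h2 : ∀ r : J n, P g p r * H u' (τ.1 * g 0 0 + τ.2 * g 1 0, τ.1 * g 0 1 + τ.2 * g 1 1) r q =
      if r = q + u' then (if p = act g (q + u') then
        e (-((τ.1 * g 0 0 + τ.2 * g 1 0) * q.1 + (τ.1 * g 0 1 + τ.2 * g 1 1) * q.2)) else 0)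
      else 0 := by
    intro r
    unfold H P
    by_cases h1 : r = q + u'
    · subst h1
      rw [if_pos rfl, if_pos rfl]
      split_ifs
      · rw [one_mul]
      · rw [zero_mul]
    · rw [if_neg h1, if_neg h1, mul_zero]
  simp only [h1, h2]
  rw [Finset.sum_ite_eq' Finset.univ (act g q), if_pos (Finset.mem_univ _),
    Finset.sum_ite_eq' Finset.univ (q + u'), if_pos (Finset.mem_univ _), act_add]
  have h3 : -(τ.1 * (act g q).1 + τ.2 * (act g q).2) =
      -((τ.1 * g 0 0 + τ.2 * g 1 0) * q.1 + (τ.1 * g 0 1 + τ.2 * g 1 1) * q.2) := by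
    unfold act
    ring
  rw [h3]

/-- the matrix of multiplication by a simple object -/
noncomputable def Mx (W : J n) : Matrix (J n) (J n) ℂ := fun a b => if a = b + W then 1 else 0

theorem K_Mx (W : J n) : K (0, W.1) (W.2, 0) = Mx W := by
  ext a b
  unfold K Mx
  simp only [mul_zero, zero_mul, sub_zero, e_zero, Prod.mk.eta]

theorem Mx_B (W : J n) : Mx W * Bᴴ = Bᴴ * H (0, W.1) (W.2, 0) := by
  have h1 : H (0, W.1) (W.2, 0) * B = B * Mx W := by rw [H_B, K_Mx]
  have h2 : (n : ℂ) • (Mx W * Bᴴ) = (n : ℂ) • (Bᴴ * H (0, W.1) (W.2, 0)) := by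
    calc (n : ℂ) • (Mx W * Bᴴ) = (Bᴴ * B) * (Mx W * Bᴴ) := by
          rw [B_mul', smul_mul_assoc, one_mul]
      _ = Bᴴ * (B * Mx W) * Bᴴ := by simp only [Matrix.mul_assoc]
      _ = Bᴴ * H (0, W.1) (W.2, 0) * (B * Bᴴ) := by
          rw [← h1]
          simp only [Matrix.mul_assoc]
      _ = (n : ℂ) • (Bᴴ * H (0, W.1) (W.2, 0)) := by
          rw [B_mul, mul_smul_comm, mul_one]
  have h3 := congrArg (fun X => (n : ℂ)⁻¹ • X) h2
  simp only [smul_smul, inv_mul_cancel₀ (n_ne (n := n)), one_smul] at h3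
  exact h3

omit [NeZero n] in
theorem det_eq (g : SL n) : g 0 0 * g 1 1 - g 0 1 * g 1 0 = 1 := by
  have := g.2
  rwa [Matrix.det_fin_two] at this

/-- the conjugate of the multiplication -/
theorem Mx_rho (g : SL n) (W : J n) : Mx W * rho g = rho g *
    K (-(g 0 1 * W.1), g 0 0 * W.1) (W.2 * g 0 0, W.2 * g 0 1) := by
  have hu : ((0 : ZMod n), W.1) = act g (-(g 0 1 * W.1), g 0 0 * W.1) := by
    unfold act
    ext
    · simp only
      ring
    · simp only
      linear_combination (-W.1) * det_eq g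
  have hP := H_P g (-(g 0 1 * W.1), g 0 0 * W.1) (W.2, 0)
  rw [← hu] at hP
  simp only [zero_mul, add_zero] at hP
  rw [rho_eq, mul_smul_comm, smul_mul_assoc]
  congr 1
  calc Mx W * (Bᴴ * P g * B) = (Mx W * Bᴴ) * P g * B := by simp only [Matrix.mul_assoc]
    _ = Bᴴ * (H (0, W.1) (W.2, 0) * P g) * B := by
        rw [Mx_B]
        simp only [Matrix.mul_assoc]
    _ = Bᴴ * P g * (H (-(g 0 1 * W.1), g 0 0 * W.1) (W.2 * g 0 0, W.2 * g 0 1) * B) := by
        rw [hP]
        simp only [Matrix.mul_assoc]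
    _ = Bᴴ * P g * B * K (-(g 0 1 * W.1), g 0 0 * W.1) (W.2 * g 0 0, W.2 * g 0 1) := by
        rw [H_B]
        simp only [Matrix.mul_assoc]

/-- the sum in the indicators -/
theorem star_sum (g : SL n) (i j W : J n) :
    ∑ a, ∑ b, rho g a i * conj (rho g b j) * Mx W a b =
      if i = j + (g 0 0 * W.1, g 0 0 * W.2) then e (g 0 1 * (i.2 * W.1 + W.2 * j.1)) else 0 := by
  have h1 : (rho g)ᴴ * (Mx W * rho g) =
      K (-(g 0 1 * W.1), g 0 0 * W.1) (W.2 * g 0 0, W.2 * g 0 1) := by
    rw [Mx_rho, ← Matrix.mul_assoc, rho_unitary, one_mul]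
  have h2 := congrFun (congrFun h1 i) j
  have h3 : ((rho g)ᴴ * (Mx W * rho g)) i j = conj (∑ a, ∑ b, rho g a i * conj (rho g b j) *
      Mx W a b) := by
    rw [Matrix.mul_apply, map_sum]
    refine Finset.sum_congr rfl fun a _ => ?_
    rw [Matrix.mul_apply, map_sum, Finset.mul_sum]
    refine Finset.sum_congr rfl fun b _ => ?_
    rw [Matrix.conjTranspose_apply, ← starRingEnd_apply, map_mul, map_mul, Complex.conj_conj]
    have h4 : conj (Mx W a b) = Mx W a b := by
      unfold Mx
      split_ifs <;> simp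
    rw [h4]
    ring
  rw [h3] at h2
  have h5 := congrArg conj h2
  rw [Complex.conj_conj] at h5
  rw [h5]
  unfold K
  by_cases h6 : i = j + (g 0 0 * W.1, g 0 0 * W.2)
  · have h7 : i = j + (g 0 0 * W.1, W.2 * g 0 0) := by rw [h6, mul_comm W.2]
    rw [if_pos h6, if_pos h7, conj_e]
    congr 1
    have h8 : i.2 = j.2 + g 0 0 * W.2 := by rw [h6]; rfl
    rw [h8]
    ring
  · have h7 : ¬ i = j + (g 0 0 * W.1, W.2 * g 0 0) := by rwa [mul_comm W.2]
    rw [if_neg h6, if_neg h7, map_zero]

theorem Mx_pow (W : J n) (q : ℕ) : Mx W ^ q = Mx (q • W) := by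
  induction q with
  | zero =>
    rw [pow_zero, zero_smul]
    ext a b
    unfold Mx
    rw [add_zero, Matrix.one_apply]
  | succ q ih =>
    rw [pow_succ, ih]
    ext a b
    rw [Matrix.mul_apply]
    have h1 : ∀ r : J n, Mx (q • W) a r * Mx W r b =
        if r = b + W then (if a = b + (q + 1) • W then (1 : ℂ) else 0) else 0 := by
      intro r
      unfold Mx
      by_cases h1 : r = b + W
      · subst h1
        rw [if_pos rfl, if_pos rfl, mul_one]
        have : b + W + q • W = b + (q + 1) • W := by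
          rw [add_smul, one_smul]
          abel
        rw [this]
      · rw [if_neg h1, if_neg h1, mul_zero]
    simp only [h1]
    rw [Finset.sum_ite_eq' Finset.univ (b + W), if_pos (Finset.mem_univ _)]
    rfl

end Pool.Agent.Helper94.Wit
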