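import Pool.Agent.Helper94.Wit.Fields

/-! # MP_2b6189_al: a witness for `CentreData`, further fields -/

set_option autoImplicit false

namespace Pool.Agent.Helper94.Wit

open Matrix ComplexConjugate Pool.Agent.Helper94.YF

variable {n : ℕ} [NeZero n]

/-- the twist -/
noncomputable def th (i : J n) : ℂ := e (i.1 * i.2)

theorem rho_T : rho (U 1 : SL n) = Matrix.diagonal (th (n := n)) := by
  ext i j
  rw [rho_apply, Matrix.diagonal_apply]
  have h : (U 1 : SL n) 0 0 = 1 ∧ (U 1 : SL n) 0 1 = 1 ∧ (U 1 : SL n) 1 0 = 0 ∧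
      (U 1 : SL n) 1 1 = 1 := ⟨rfl, rfl, rfl, rfl⟩
  rw [h.1, h.2.1, h.2.2.1, h.2.2.2]
  simp only [zero_mul, one_mul, zero_add]
  by_cases h1 : j.1 = i.1
  · simp only [if_pos h1]
    have h2 : ∀ y : ZMod n, e (i.2 * (y + j.1) - j.2 * y) =
        e (y * (i.2 - j.2)) * e (i.2 * j.1) := by
      intro y
      rw [← e_add]
      congr 1
      ring
    simp only [h2]
    rw [← Finset.sum_mul, e_sum]
    by_cases h3 : i.2 = j.2
    · rw [if_pos (sub_eq_zero.2 h3), if_pos (Prod.ext h1.symm h3), ← mul_assoc,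
        inv_mul_cancel₀ n_ne, one_mul]
      unfold th
      rw [h1, mul_comm]
    · rw [if_neg (sub_ne_zero.2 h3), if_neg fun h => h3 (by rw [h]), zero_mul, mul_zero]
  · simp only [if_neg h1]
    rw [Finset.sum_const_zero, mul_zero, if_neg fun h => h1 (by rw [h])]

theorem rho_S (i j : J n) : rho (Sm : SL n) i j = (n : ℂ)⁻¹ * e (-(i.2 * j.1 + j.2 * i.1)) := by
  rw [rho_apply]
  have h : (Sm : SL n) 0 0 = 0 ∧ (Sm : SL n) 0 1 = -1 ∧ (Sm : SL n) 1 0 = 1 ∧
      (Sm : SL n) 1 1 = 0 := ⟨rfl, rfl, rfl, rfl⟩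
  rw [h.1, h.2.1, h.2.2.1, h.2.2.2]
  simp only [zero_mul, one_mul, zero_add, add_zero]
  rw [Finset.sum_ite_eq' Finset.univ i.1, if_pos (Finset.mem_univ _)]
  congr 2
  ring

theorem borel (c : (ZMod n)ˣ) (i : J n) : rho (Dg c : SL n) i 0 = if i = 0 then 1 else 0 := by
  rw [rho_apply]
  have h : (Dg c : SL n) 0 0 = c ∧ (Dg c : SL n) 1 0 = 0 := ⟨rfl, rfl⟩
  rw [h.1, h.2]
  simp only [zero_mul, Prod.fst_zero, Prod.snd_zero, mul_zero, add_zero, sub_zero]
  by_cases h1 : (0 : ZMod n) = i.1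
  · simp only [if_pos h1]
    have h2 : ∀ y : ZMod n, e (i.2 * ((c : ZMod n) * y)) = e (y * (i.2 * (c : ZMod n))) := by
      intro y
      congr 1
      ring
    simp only [h2]
    rw [e_sum]
    by_cases h3 : i.2 = 0
    · rw [if_pos (by rw [h3, zero_mul]), if_pos (Prod.ext h1.symm h3), inv_mul_cancel₀ n_ne]
    · have h4 : ¬ i.2 * (c : ZMod n) = 0 := by
        intro h5
        apply h3
        have h6 := congrArg (fun x => x * ((c⁻¹ : (ZMod n)ˣ) : ZMod n)) h5
        simpa [mul_assoc] using h6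
      rw [if_neg h4, mul_zero, if_neg fun h => h3 (by rw [h]; rfl)]
  · simp only [if_neg h1]
    rw [Finset.sum_const_zero, mul_zero, if_neg fun h => h1 (by rw [h]; rfl)]

/-- an automorphism of `ℂ` acts on the characters through a unit -/
theorem gal (σ : ℂ ≃+* ℂ) : ∃ c : (ZMod n)ˣ, ∀ t : ZMod n, σ (e t) = e ((c : ZMod n) * t) := by
  have hprim : IsPrimitiveRoot (e (1 : ZMod n)) n := by
    refine ⟨?_, fun l hl => ?_⟩
    · rw [← e_nsmul, ZMod.natCast_self, zero_mul, e_zero]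
    · rw [← e_nsmul, mul_one, ← e_zero (n := n)] at hl
      exact (ZMod.natCast_eq_zero_iff l n).1 (e_inj hl)
  have h1 : IsPrimitiveRoot (σ (e (1 : ZMod n))) n :=
    hprim.map_of_injective σ.injective
  obtain ⟨i, -, hi, h2⟩ := hprim.isPrimitiveRoot_iff.1 h1
  refine ⟨ZMod.unitOfCoprime i hi, fun t => ?_⟩
  obtain ⟨m, rfl⟩ := ZMod.natCast_zmod_surjective t
  have h3 : e ((m : ℕ) : ZMod n) = e (1 : ZMod n) ^ m := by rw [← e_nsmul, mul_one]
  rw [h3, map_pow, ← h2, ZMod.coe_unitOfCoprime, e_nsmul, h3, ← pow_mul, ← pow_mul, mul_comm]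

theorem galois (σ : ℂ ≃+* ℂ) : ∃ c : (ZMod n)ˣ, ∀ g g' : SL n,
    g' 0 0 = g 0 0 → g' 0 1 = (c : ZMod n) * g 0 1 → (c : ZMod n) * g' 1 0 = g 1 0 →
    g' 1 1 = g 1 1 → ∀ i j, rho g' i j = σ (rho g i j) := by
  obtain ⟨c, hc⟩ := gal (n := n) σ
  refine ⟨c, fun g g' h00 h01 h10 h11 i j => ?_⟩
  rw [rho_apply, rho_apply, map_mul, map_inv₀, map_natCast, map_sum, h00, h01, h11]
  congr 1
  symm
  refine Fintype.sum_equiv (Units.mulLeft c) _ _ fun y => ?_
  rw [Units.mulLeft_apply, ← h10]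
  have h1 : (c : ZMod n) * g' 1 0 * y + g 1 1 * j.1 = g' 1 0 * (c * y) + g 1 1 * j.1 := by ring
  rw [h1]
  split_ifs
  · rw [hc]
    congr 1
    ring
  · rw [map_zero]

/-- fusion coefficients -/
def Nf (i j k : J n) : ℕ := if k = i + j then 1 else 0

theorem verlinde (i j l : J n) : rho (Sm : SL n) i l * rho (Sm : SL n) j l =
    rho (Sm : SL n) 0 l * ∑ k, (Nf i j k : ℂ) * rho (Sm : SL n) k l := by
  have h1 : ∀ k : J n, (Nf i j k : ℂ) * rho (Sm : SL n) k l =
      if k = i + j then rho (Sm : SL n) (i + j) l else 0 := by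
    intro k
    unfold Nf
    split_ifs with h
    · rw [h, Nat.cast_one, one_mul]
    · rw [Nat.cast_zero, zero_mul]
  simp only [h1]
  rw [Finset.sum_ite_eq' Finset.univ (i + j), if_pos (Finset.mem_univ _), rho_S, rho_S, rho_S,
    rho_S, mul_mul_mul_comm, mul_mul_mul_comm (n : ℂ)⁻¹ (e (-((0 : J n).2 * l.1 + l.2 * (0 : J n).1))),
    ← e_add, ← e_add]
  congr 2
  simp only [Prod.fst_zero, Prod.snd_zero, Prod.fst_add, Prod.snd_add]
  ring

omit [NeZero n] in
theorem NMat_eq (V : J n) : Pool.Agent.Helper94.YG.NMat Nf (fun i : J n => -i) V = Mx V := by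
  ext a b
  unfold Pool.Agent.Helper94.YG.NMat Nf Mx
  by_cases h : a = b + V
  · rw [if_pos h, if_pos, Nat.cast_one]
    rw [h]
    exact (add_neg_cancel_comm b V).symm
  · rw [if_neg h, if_neg fun h1 => h ?_, Nat.cast_zero]
    rw [h1]
    exact (add_add_neg_cancel'_right b a).symm

theorem e_int (t : ZMod n) : IsIntegral ℤ (e t) := by
  have h1 : e t ^ n = 1 := by rw [← e_nsmul, ZMod.natCast_self, zero_mul, e_zero]
  exact IsIntegral.of_pow (Nat.pos_of_ne_zero (NeZero.ne n)) (h1 ▸ isIntegral_one)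

theorem indicatorZ (g : SL n) (i j V : J n) :
    IsIntegral ℤ (∑ k, ∑ l, rho g k i * conj (rho g l j) * (Nf k (-l) V : ℂ)) := by
  have h1 : ∀ k l : J n, (Nf k (-l) V : ℂ) = Mx V k l := by
    intro k l
    rw [← NMat_eq]
    rfl
  simp only [h1]
  rw [star_sum]
  split_ifs
  · exact e_int _
  · exact isIntegral_zero

theorem indicatorV (i j V : J n) (k : ℕ) : ∃ (M : ℕ) (lam : Fin M → ℂ),
    (∀ r, lam r ^ k = th i * conj (th j)) ∧
    ∀ (l : ℕ) (g : SL n), g 0 0 = ((k / l.gcd k : ℕ) : ZMod n) →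
      g 0 1 = ((l / l.gcd k : ℕ) : ZMod n) →
      ∑ r, lam r ^ l = ∑ a, ∑ b, rho g a i * conj (rho g b j) *
        (Pool.Agent.Helper94.YG.NMat Nf (fun i : J n => -i) V ^ (l.gcd k)) a b := by
  have key : ∀ (l : ℕ) (g : SL n), g 0 0 = ((k / l.gcd k : ℕ) : ZMod n) →
      g 0 1 = ((l / l.gcd k : ℕ) : ZMod n) →
      ∑ a, ∑ b, rho g a i * conj (rho g b j) *
        (Pool.Agent.Helper94.YG.NMat Nf (fun i : J n => -i) V ^ (l.gcd k)) a b =
      if i = j + ((k : ZMod n) * V.1, (k : ZMod n) * V.2) then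
        e (i.2 * V.1 + V.2 * j.1) ^ l else 0 := by
    intro l g h0 h1
    rw [NMat_eq, Mx_pow, star_sum, h0, h1]
    have hk1 : ((k / l.gcd k : ℕ) : ZMod n) * (l.gcd k : ZMod n) = k := by
      rw [← Nat.cast_mul, Nat.div_mul_cancel (Nat.gcd_dvd_right l k)]
    have hl1 : ((l / l.gcd k : ℕ) : ZMod n) * (l.gcd k : ZMod n) = l := by
      rw [← Nat.cast_mul, Nat.div_mul_cancel (Nat.gcd_dvd_left l k)]
    have e1 : (l.gcd k • V).1 = (l.gcd k : ZMod n) * V.1 := by
      rw [Prod.smul_fst, nsmul_eq_mul]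
    have e2 : (l.gcd k • V).2 = (l.gcd k : ZMod n) * V.2 := by
      rw [Prod.smul_snd, nsmul_eq_mul]
    rw [e1, e2, ← mul_assoc, ← mul_assoc, hk1]
    have e3 : ((l / l.gcd k : ℕ) : ZMod n) * (i.2 * ((l.gcd k : ZMod n) * V.1) +
        (l.gcd k : ZMod n) * V.2 * j.1) = l * (i.2 * V.1 + V.2 * j.1) := by
      rw [← hl1]
      ring
    rw [e3, e_nsmul]
  by_cases h : i = j + ((k : ZMod n) * V.1, (k : ZMod n) * V.2)
  · refine ⟨1, fun _ => e (i.2 * V.1 + V.2 * j.1), fun _ => ?_, fun l g h0 h1 => ?_⟩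
    · rw [← e_nsmul]
      unfold th
      rw [conj_e, ← e_add]
      congr 1
      have h1 : i.1 = j.1 + k * V.1 := by rw [h]; rfl
      have h2 : i.2 = j.2 + k * V.2 := by rw [h]; rfl
      rw [h1, h2]
      ring
    · rw [key l g h0 h1, if_pos h]
      simp
  · refine ⟨0, fun _ => 0, fun r => r.elim0, fun l g h0 h1 => ?_⟩
    rw [key l g h0 h1, if_neg h]
    simp

/-- the Lagrangian algebra -/
def kapF (i : J n) : ℕ := if i.1 = 0 then 1 else 0

theorem kap_inv (g : SL n) (i : J n) : ∑ j, rho g i j * (kapF j : ℂ) = kapF i := by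
  have h1 : ∀ j : J n, rho g i j * (kapF j : ℂ) = if j.1 = 0 then (n : ℂ)⁻¹ * ∑ y : ZMod n,
      (if g 1 0 * y = i.1 then e (i.2 * (g 0 0 * y)) * e (j.2 * (-y)) else 0) else 0 := by
    intro j
    unfold kapF
    by_cases h : j.1 = 0
    · rw [if_pos h, if_pos h, rho_apply, h, Nat.cast_one, mul_one]
      congr 1
      refine Finset.sum_congr rfl fun y _ => ?_
      simp only [mul_zero, add_zero]
      split_ifs
      · rw [← e_add]
        congr 1
        ring
      · rfl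
    · rw [if_neg h, if_neg h, Nat.cast_zero, mul_zero]
  simp only [h1]
  rw [Fintype.sum_prod_type]
  simp only
  rw [Finset.sum_comm]
  have h2 : ∀ s : ZMod n, ∑ x : ZMod n, (if x = 0 then (n : ℂ)⁻¹ * ∑ y : ZMod n,
      (if g 1 0 * y = i.1 then e (i.2 * (g 0 0 * y)) * e (s * (-y)) else 0) else 0) =
      (n : ℂ)⁻¹ * ∑ y : ZMod n,
      (if g 1 0 * y = i.1 then e (i.2 * (g 0 0 * y)) * e (s * (-y)) else 0) := by
    intro s
    rw [Finset.sum_ite_eq' Finset.univ (0 : ZMod n), if_pos (Finset.mem_univ _)]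
  simp only [h2]
  rw [← Finset.mul_sum, Finset.sum_comm]
  have h3 : ∀ y : ZMod n, ∑ s : ZMod n, (if g 1 0 * y = i.1 then
      e (i.2 * (g 0 0 * y)) * e (s * (-y)) else 0) =
      if y = 0 then (if i.1 = 0 then (n : ℂ) else 0) else 0 := by
    intro y
    by_cases h : g 1 0 * y = i.1
    · simp only [if_pos h]
      rw [← Finset.mul_sum, e_sum]
      by_cases hy : y = 0
      · subst hy
        rw [mul_zero] at h
        rw [neg_zero, if_pos rfl, if_pos rfl, if_pos h.symm, mul_zero, mul_zero, e_zero, one_mul]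
      · rw [if_neg (neg_ne_zero.2 hy), if_neg hy, mul_zero]
    · simp only [if_neg h]
      rw [Finset.sum_const_zero]
      by_cases hy : y = 0
      · subst hy
        rw [mul_zero] at h
        rw [if_pos rfl, if_neg (Ne.symm h)]
      · rw [if_neg hy]
  simp only [h3]
  rw [Finset.sum_ite_eq' Finset.univ (0 : ZMod n), if_pos (Finset.mem_univ _)]
  unfold kapF
  split_ifs
  · rw [inv_mul_cancel₀ n_ne, Nat.cast_one]
  · rw [mul_zero, Nat.cast_zero]

end Pool.Agent.Helper94.Wit
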