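import Mathlib

/-! # MP_2b6189_al: a witness for `CentreData`, eigenvalues of a matrix of finite order -/

set_option autoImplicit false

namespace Pool.Agent.Helper94.Wit

open Matrix

variable {X : Type} [Fintype X] [DecidableEq X]

/-- the trace of an idempotent matrix is a natural number -/
theorem trace_idem (P : Matrix X X ℂ) (h : P * P = P) : ∃ m : ℕ, P.trace = m := by
  have h1 : IsIdempotentElem (Matrix.toLin' P) := by
    unfold IsIdempotentElem
    rw [Module.End.mul_eq_comp, ← Matrix.toLin'_mul, h]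
  have h2 := (LinearMap.isProj_range_iff_isIdempotentElem (Matrix.toLin' P)).2 h1
  refine ⟨Module.finrank ℂ (LinearMap.range (Matrix.toLin' P)), ?_⟩
  rw [← h2.trace, Matrix.trace_toLin'_eq]

/-- the eigenvalues of a matrix `E` with `E ^ k = θ` -/
theorem spec (E : Matrix X X ℂ) (k : ℕ) (hk : 0 < k) (θ : ℂ) (hθ : θ ≠ 0)
    (hE : E ^ k = θ • (1 : Matrix X X ℂ)) :
    ∃ (M : ℕ) (lam : Fin M → ℂ), (∀ r, lam r ^ k = θ) ∧
      ∀ l : ℕ, ∑ r, lam r ^ l = (E ^ l).trace := by
  obtain ⟨μ₀, hμ₀⟩ := IsAlgClosed.exists_pow_nat_eq θ hk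
  have hμ0 : μ₀ ≠ 0 := by
    rintro rfl
    rw [zero_pow hk.ne'] at hμ₀
    exact hθ hμ₀.symm
  have hk0 : (k : ℂ) ≠ 0 := Nat.cast_ne_zero.2 hk.ne'
  set ζ := Complex.exp (2 * Real.pi * Complex.I / k) with hζdef
  have hζ : IsPrimitiveRoot ζ k := Complex.isPrimitiveRoot_exp k hk.ne'
  have hζ0 : ζ ≠ 0 := hζ.ne_zero hk.ne'
  set μ : Fin k → ℂ := fun r => μ₀ * ζ ^ (r : ℕ) with hμdef
  have hμk : ∀ r, μ r ^ k = θ := by
    intro r
    rw [hμdef]
    simp only
    rw [mul_pow, ← pow_mul, mul_comm (r : ℕ) k, pow_mul, hζ.pow_eq_one, one_pow, mul_one, hμ₀]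
  have hμn : ∀ r, μ r ≠ 0 := fun r => mul_ne_zero hμ0 (pow_ne_zero _ hζ0)
  set P : Fin k → Matrix X X ℂ := fun r =>
    (k : ℂ)⁻¹ • ∑ j ∈ Finset.range k, ((μ r)⁻¹ • E) ^ j with hPdef
  have hF : ∀ r, ((μ r)⁻¹ • E) ^ k = 1 := by
    intro r
    rw [smul_pow, hE, smul_smul, inv_pow, hμk, inv_mul_cancel₀ hθ, one_smul]
  have hFP : ∀ r, ((μ r)⁻¹ • E) * P r = P r := by
    intro r
    rw [hPdef]
    simp only
    rw [mul_smul_comm, Finset.mul_sum]
    congr 1
    have h1 := Finset.sum_range_succ (fun j => ((μ r)⁻¹ • E) ^ j) k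
    have h2 := Finset.sum_range_succ' (fun j => ((μ r)⁻¹ • E) ^ j) k
    rw [h1, hF, pow_zero] at h2
    have h3 := add_right_cancel h2
    rw [h3]
    exact Finset.sum_congr rfl fun j _ => (pow_succ' _ _).symm
  have hFjP : ∀ r (j : ℕ), ((μ r)⁻¹ • E) ^ j * P r = P r := by
    intro r j
    induction j with
    | zero => rw [pow_zero, one_mul]
    | succ j ih => rw [pow_succ, mul_assoc, hFP, ih]
  have hPP : ∀ r, P r * P r = P r := by
    intro r
    have h1 : P r * P r = (k : ℂ)⁻¹ • ∑ j ∈ Finset.range k, ((μ r)⁻¹ • E) ^ j * P r := by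
      conv_lhs => rw [hPdef]
      simp only
      rw [smul_mul_assoc, Finset.sum_mul]
    rw [h1, Finset.sum_congr rfl fun j _ => hFjP r j, Finset.sum_const, Finset.card_range,
      ← Nat.cast_smul_eq_nsmul ℂ, smul_smul, inv_mul_cancel₀ hk0, one_smul]
  have hEP : ∀ r (l : ℕ), E ^ l * P r = μ r ^ l • P r := by
    intro r l
    have h1 : E ^ l = μ r ^ l • ((μ r)⁻¹ • E) ^ l := by
      rw [smul_pow, smul_smul, inv_pow, mul_inv_cancel₀ (pow_ne_zero _ (hμn r)), one_smul]
    rw [h1, smul_mul_assoc, hFjP]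
  have hsum : ∑ r, P r = 1 := by
    rw [hPdef]
    simp only
    rw [← Finset.smul_sum, Finset.sum_comm]
    have h1 : ∀ j ∈ Finset.range k, ∑ r : Fin k, ((μ r)⁻¹ • E) ^ j =
        if j = 0 then (k : ℂ) • (1 : Matrix X X ℂ) else 0 := by
      intro j hj
      rw [Finset.mem_range] at hj
      split_ifs with h0
      · subst h0
        simp only [pow_zero]
        rw [Finset.sum_const, Finset.card_univ, Fintype.card_fin, ← Nat.cast_smul_eq_nsmul ℂ]
      · have h2 : ∀ r : Fin k, ((μ r)⁻¹ • E) ^ j = ((ζ⁻¹ ^ j) ^ (r : ℕ)) • (μ₀⁻¹ ^ j • E ^ j) := by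
          intro r
          rw [smul_pow, smul_smul, hμdef]
          simp only
          congr 1
          rw [mul_inv, mul_pow, mul_comm, ← inv_pow, ← pow_mul, ← pow_mul, mul_comm (r : ℕ) j]
        rw [Finset.sum_congr rfl fun r _ => h2 r, ← Finset.sum_smul]
        have h3 : ∑ r : Fin k, (ζ⁻¹ ^ j) ^ (r : ℕ) = 0 := by
          rw [Fin.sum_univ_eq_sum_range (fun r => (ζ⁻¹ ^ j) ^ r) k]
          have h4 : ζ⁻¹ ^ j ≠ 1 := by
            intro h5
            rw [inv_pow, inv_eq_one] at h5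
            have := Nat.le_of_dvd (Nat.pos_of_ne_zero h0) (hζ.dvd_of_pow_eq_one j h5)
            omega
          have h6 : (ζ⁻¹ ^ j) ^ k = 1 := by
            rw [← pow_mul, mul_comm, pow_mul, inv_pow, hζ.pow_eq_one, inv_one, one_pow]
          have h7 := mul_neg_geom_sum (ζ⁻¹ ^ j) k
          rw [h6, sub_self] at h7
          exact (mul_eq_zero.1 h7).resolve_left (sub_ne_zero.2 (Ne.symm h4))
        rw [h3, zero_smul]
    rw [Finset.sum_congr rfl h1, Finset.sum_ite_eq' (Finset.range k) 0,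
      if_pos (Finset.mem_range.2 hk), smul_smul, inv_mul_cancel₀ hk0, one_smul]
  choose m hm using fun r => trace_idem (P r) (hPP r)
  set T := Σ r : Fin k, Fin (m r) with hT
  refine ⟨Fintype.card T, fun r => μ ((Fintype.equivFin T).symm r).1, fun r => hμk _, fun l => ?_⟩
  rw [Equiv.sum_comp (Fintype.equivFin T).symm (fun t : T => μ t.1 ^ l), Fintype.sum_sigma]
  have h1 : E ^ l = ∑ r, μ r ^ l • P r := by
    calc E ^ l = E ^ l * ∑ r, P r := by rw [hsum, mul_one]
      _ = ∑ r, μ r ^ l • P r := by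
        rw [Finset.mul_sum]
        exact Finset.sum_congr rfl fun r _ => hEP r l
  rw [h1, Matrix.trace_sum]
  refine Finset.sum_congr rfl fun r _ => ?_
  rw [Matrix.trace_smul, hm]
  simp only [Finset.sum_const, Finset.card_univ, Fintype.card_fin, nsmul_eq_mul, smul_eq_mul]
  rw [mul_comm]

end Pool.Agent.Helper94.Wit
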