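import Pool.Agent.Helper94.Wit.Fields2
import Pool.Agent.Helper94.Wit.Spec

/-! # MP_2b6189_al: a witness for `CentreData`, the indicators of first kind (necklaces) -/

set_option autoImplicit false

namespace Pool.Agent.Helper94.Wit

open Matrix ComplexConjugate Pool.Agent.Helper94.YF

/-! ### periodic functions -/

section per

variable {A : Type} {k : ℕ}

/-- the periodic extension -/
def ex (hk : 0 < k) (x : Fin k → A) (j : ℕ) : A := x ⟨j % k, Nat.mod_lt _ hk⟩

theorem ex_lt (hk : 0 < k) (x : Fin k → A) (j : Fin k) : ex hk x j = x j := by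
  unfold ex
  congr 1
  exact Fin.ext (Nat.mod_eq_of_lt j.2)

theorem ex_congr (hk : 0 < k) (x : Fin k → A) {i j : ℕ} (h : i % k = j % k) :
    ex hk x i = ex hk x j := by
  unfold ex
  congr 1
  exact Fin.ext h

theorem ex_per (hk : 0 < k) (x : Fin k → A) (j : ℕ) : ex hk x (j + k) = ex hk x j :=
  ex_congr hk x (Nat.add_mod_right j k)

/-- rotation -/
def R (hk : 0 < k) (x : Fin k → A) : Fin k → A := fun j => ex hk x (j + 1)

theorem ex_R (hk : 0 < k) (x : Fin k → A) (j : ℕ) : ex hk (R hk x) j = ex hk x (j + 1) := by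
  have h1 : ex hk (R hk x) j = ex hk x (j % k + 1) := rfl
  rw [h1]
  exact ex_congr hk x (Nat.mod_add_mod j k 1)

theorem ex_R_iter (hk : 0 < k) (l : ℕ) (x : Fin k → A) (j : ℕ) :
    ex hk ((R hk)^[l] x) j = ex hk x (j + l) := by
  induction l generalizing j with
  | zero => rfl
  | succ l ih =>
    rw [Function.iterate_succ_apply', ex_R, ih]
    congr 1
    omega

theorem R_iter_eq (hk : 0 < k) (l : ℕ) (x : Fin k → A) :
    x = (R hk)^[l] x ↔ ∀ j, ex hk x (j + l) = ex hk x j := by
  constructor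
  · intro h j
    rw [← ex_R_iter, ← h]
  · intro h
    funext j
    rw [← ex_lt hk ((R hk)^[l] x) j, ex_R_iter, h, ex_lt]

theorem per_mul {f : ℕ → A} {q : ℕ} (h : ∀ j, f (j + q) = f j) (c j : ℕ) :
    f (j + q * c) = f j := by
  induction c with
  | zero => rfl
  | succ c ih => rw [Nat.mul_succ, ← add_assoc, h, ih]

theorem per_gcd {f : ℕ → A} (l k : ℕ) : (∀ j, f (j + l) = f j) → (∀ j, f (j + k) = f j) →
    ∀ j, f (j + l.gcd k) = f j := by
  refine Nat.gcd.induction (P := fun l k => (∀ j, f (j + l) = f j) → (∀ j, f (j + k) = f j) →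
    ∀ j, f (j + l.gcd k) = f j) l k ?_ ?_
  · intro n _ h
    rw [Nat.gcd_zero_left]
    exact h
  · intro m n _ ih hm hn
    rw [Nat.gcd_rec]
    refine ih ?_ hm
    intro j
    have h1 := per_mul hm (n / m) (j + n % m)
    rw [add_assoc, Nat.mod_add_div, hn] at h1
    exact h1.symm

theorem per_iff (hk : 0 < k) (l : ℕ) (x : Fin k → A) :
    (∀ j, ex hk x (j + l) = ex hk x j) ↔ ∀ j, ex hk x (j + l.gcd k) = ex hk x j := by
  constructor
  · intro h
    exact per_gcd l k h (ex_per hk x)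
  · intro h j
    obtain ⟨c, hc⟩ := Nat.gcd_dvd_left l k
    rw [hc]
    exact per_mul h c j

variable [AddCommMonoid A]

theorem sum_ex (hk : 0 < k) (x : Fin k → A) :
    ∑ j ∈ Finset.range k, ex hk x j = ∑ j, x j := by
  rw [Finset.sum_range]
  exact Finset.sum_congr rfl fun j _ => ex_lt hk x j

theorem sum_per {f : ℕ → A} {q : ℕ} (h : ∀ j, f (j + q) = f j) (c : ℕ) :
    ∑ j ∈ Finset.range (q * c), f j = c • ∑ j ∈ Finset.range q, f j := by
  induction c with
  | zero => simp
  | succ c ih =>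
    rw [Nat.mul_succ, Finset.sum_range_add, ih, add_smul, one_smul]
    congr 1
    refine Finset.sum_congr rfl fun j _ => ?_
    rw [add_comm (q * c) j]
    exact per_mul h c j

end per

section neck

variable {n : ℕ} [NeZero n] {k : ℕ}

omit [NeZero n] in
theorem sum_R (hk : 0 < k) (x : Fin k → ZMod n) : ∑ j, R hk x j = ∑ j, x j := by
  rw [← sum_ex hk (R hk x), ← sum_ex hk x]
  have h1 := Finset.sum_range_succ (fun j => ex hk x j) k
  have h2 := Finset.sum_range_succ' (fun j => ex hk x j) k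
  have h3 : ex hk x k = ex hk x 0 := by
    have := ex_per hk x 0
    rwa [zero_add] at this
  rw [h1, h3] at h2
  have h4 := add_right_cancel h2
  rw [h4]
  exact Finset.sum_congr rfl fun j _ => ex_R hk x j

/-- words with sum `a` -/
abbrev Wd (n k : ℕ) (a : ZMod n) := {x : Fin k → ZMod n // ∑ j, x j = a}

/-- the operator -/
noncomputable def E (hk : 0 < k) (a s : ZMod n) : Matrix (Wd n k a) (Wd n k a) ℂ := fun y x =>
  if y.1 = R hk x.1 then e (s * ex hk x.1 0) else 0

omit [NeZero n] in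
theorem sum_R_iter (hk : 0 < k) (l : ℕ) (x : Fin k → ZMod n) :
    ∑ j, (R hk)^[l] x j = ∑ j, x j := by
  induction l with
  | zero => rfl
  | succ l ih => rw [Function.iterate_succ_apply', sum_R, ih]

theorem E_pow (hk : 0 < k) (a s : ZMod n) (l : ℕ) (y x : Wd n k a) :
    (E hk a s ^ l) y x = if y.1 = (R hk)^[l] x.1 then
      e (s * ∑ j ∈ Finset.range l, ex hk x.1 j) else 0 := by
  induction l generalizing y with
  | zero =>
    rw [pow_zero, Matrix.one_apply]
    simp only [Function.iterate_zero, id_eq, Finset.range_zero, Finset.sum_empty, mul_zero,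
      e_zero, Subtype.ext_iff]
  | succ l ih =>
    rw [pow_succ', Matrix.mul_apply]
    set z₀ : Wd n k a := ⟨(R hk)^[l] x.1, by rw [sum_R_iter]; exact x.2⟩ with hz
    have h1 : ∀ z : Wd n k a, E hk a s y z * (E hk a s ^ l) z x = if z = z₀ then
        (if y.1 = (R hk)^[l + 1] x.1 then
          e (s * ∑ j ∈ Finset.range (l + 1), ex hk x.1 j) else 0) else 0 := by
      intro z
      rw [ih]
      by_cases h : z = z₀
      · subst h
        rw [if_pos rfl, if_pos rfl, Function.iterate_succ_apply']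
        unfold E
        split_ifs with h2
        · rw [← e_add]
          congr 1
          rw [Finset.sum_range_succ, mul_add]
          have h3 : ex hk ((R hk)^[l] x.1) 0 = ex hk x.1 l := by rw [ex_R_iter, zero_add]
          rw [h3]
          ring
        · rw [zero_mul]
      · rw [if_neg fun h2 => h (Subtype.ext h2), if_neg h, mul_zero]
    simp only [h1]
    rw [Finset.sum_ite_eq' Finset.univ z₀, if_pos (Finset.mem_univ _)]

theorem E_k (hk : 0 < k) (a s : ZMod n) : E hk a s ^ k = e (s * a) • 1 := by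
  ext y x
  rw [E_pow, Matrix.smul_apply, Matrix.one_apply, smul_eq_mul, mul_ite, mul_one, mul_zero,
    sum_ex, x.2]
  have h1 : (R hk)^[k] x.1 = x.1 := ((R_iter_eq hk k x.1).2 (ex_per hk x.1)).symm
  rw [h1]
  simp only [Subtype.ext_iff]

/-- the number of words with a given sum -/
theorem sum_words (q : ℕ) (hq : 0 < q) (h : ZMod n → ℂ) :
    ∑ y : Fin q → ZMod n, h (∑ j, y j) = (n : ℂ) ^ (q - 1) * ∑ t, h t := by
  obtain ⟨m, rfl⟩ : ∃ m, q = m + 1 := ⟨q - 1, by omega⟩
  rw [← Fintype.sum_equiv (Fin.consEquiv fun _ : Fin (m + 1) => ZMod n)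
    (fun p : ZMod n × (Fin m → ZMod n) => h (p.1 + ∑ j, p.2 j)) _ ?_]
  · rw [Fintype.sum_prod_type, Finset.sum_comm]
    have h1 : ∀ z : Fin m → ZMod n, ∑ t : ZMod n, h (t + ∑ j, z j) = ∑ t, h t := by
      intro z
      exact Fintype.sum_equiv (Equiv.addRight (∑ j, z j)) _ _ fun t => rfl
    simp only [h1]
    rw [Finset.sum_const, Finset.card_univ, Fintype.card_fun, ZMod.card, Fintype.card_fin,
      nsmul_eq_mul, Nat.cast_pow, Nat.add_sub_cancel]
  · intro p
    congr 1
    rw [Fin.sum_univ_succ]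
    rfl

theorem E_trace (hk : 0 < k) (a s : ZMod n) (l : ℕ) : (E hk a s ^ l).trace =
    (n : ℂ) ^ (l.gcd k - 1) * ∑ t : ZMod n, if ((k / l.gcd k : ℕ) : ZMod n) * t = a then
      e (s * (((l / l.gcd k : ℕ) : ZMod n) * t)) else 0 := by
  classical
  have hq : 0 < l.gcd k := Nat.gcd_pos_of_pos_right l hk
  set q := l.gcd k with hqdef
  have hqk : q * (k / q) = k := Nat.mul_div_cancel' (Nat.gcd_dvd_right l k)
  have hql : q * (l / q) = l := Nat.mul_div_cancel' (Nat.gcd_dvd_left l k)
  rw [← sum_words q hq fun t => if ((k / q : ℕ) : ZMod n) * t = a then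
      e (s * (((l / q : ℕ) : ZMod n) * t)) else 0]
  unfold Matrix.trace
  simp only [Matrix.diag_apply, E_pow]
  have h1 : ∀ x : Wd n k a, (if x.1 = (R hk)^[l] x.1 then
      e (s * ∑ j ∈ Finset.range l, ex hk x.1 j) else 0) =
      (fun x : Fin k → ZMod n => if x = (R hk)^[l] x then
        e (s * ∑ j ∈ Finset.range l, ex hk x j) else 0) x.1 := fun x => rfl
  rw [Finset.sum_congr rfl fun x _ => h1 x]
  rw [← Finset.sum_subtype (Finset.univ.filter fun x : Fin k → ZMod n => ∑ j, x j = a)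
    (fun x => by simp) (fun x : Fin k → ZMod n => if x = (R hk)^[l] x then
        e (s * ∑ j ∈ Finset.range l, ex hk x j) else 0)]
  rw [Finset.sum_filter]
  have h2 : ∀ x : Fin k → ZMod n, (if ∑ j, x j = a then (if x = (R hk)^[l] x then
      e (s * ∑ j ∈ Finset.range l, ex hk x j) else 0) else 0) =
      if (∀ j, ex hk x (j + q) = ex hk x j) then
        (if ((k / q : ℕ) : ZMod n) * (∑ j ∈ Finset.range q, ex hk x j) = a then
          e (s * (((l / q : ℕ) : ZMod n) * (∑ j ∈ Finset.range q, ex hk x j))) else 0) else 0 := by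
    intro x
    have h3 : x = (R hk)^[l] x ↔ ∀ j, ex hk x (j + q) = ex hk x j := by
      rw [R_iter_eq, per_iff]
    by_cases h4 : ∀ j, ex hk x (j + q) = ex hk x j
    · rw [if_pos h4, if_pos (h3.2 h4)]
      have h5 : ∑ j, x j = ((k / q : ℕ) : ZMod n) * (∑ j ∈ Finset.range q, ex hk x j) := by
        rw [← sum_ex hk x, ← nsmul_eq_mul, ← sum_per h4, hqk]
      have h6 : ∑ j ∈ Finset.range l, ex hk x j =
          ((l / q : ℕ) : ZMod n) * (∑ j ∈ Finset.range q, ex hk x j) := by
        rw [← nsmul_eq_mul, ← sum_per h4, hql]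
      rw [h5, h6]
    · rw [if_neg h4, if_neg fun h => h4 (h3.1 h), ite_self]
  simp only [h2]
  conv_lhs => rw [← Finset.sum_filter]
  refine Finset.sum_nbij' (fun x j => ex hk x j) (fun y j => ex hq y j) ?_ ?_ ?_ ?_ ?_
  · intro x _
    exact Finset.mem_univ _
  · intro y _
    rw [Finset.mem_filter]
    refine ⟨Finset.mem_univ _, fun j => ?_⟩
    have h3 : ∀ j, ex hk (fun j : Fin k => ex hq y j) j = ex hq y j := by
      intro j
      have h4 : ex hk (fun j : Fin k => ex hq y j) j = ex hq y (j % k) := rfl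
      rw [h4]
      exact ex_congr hq y (Nat.mod_mod_of_dvd j (Nat.gcd_dvd_right l k))
    rw [h3, h3]
    exact ex_per hq y j
  · intro x hx
    rw [Finset.mem_filter] at hx
    funext j
    have h3 : ex hq (fun j : Fin q => ex hk x j) j = ex hk x (j % q) := rfl
    have h4 := per_mul hx.2 (j / q) (j % q)
    rw [Nat.mod_add_div] at h4
    change ex hq (fun j : Fin q => ex hk x j) j = x j
    rw [h3, ← h4, ex_lt]
  · intro y _
    funext j
    have h4 : ex hk (fun j : Fin k => ex hq y j) j = ex hq y (j % k) := rfl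
    rw [h4, ex_congr hq y (Nat.mod_mod_of_dvd j (Nat.gcd_dvd_right l k)), ex_lt]
  · intro x _
    simp only
    rw [Finset.sum_range]

/-- the indicators of first kind -/
theorem indicator (i : J n) (k : ℕ) (hk : 0 < k) : ∃ (M : ℕ) (lam : Fin M → ℂ),
    (∀ r, lam r ^ k = th i) ∧
    ∀ (l : ℕ) (g : SL n), g 0 0 = ((l / l.gcd k : ℕ) : ZMod n) →
      g 1 0 = ((k / l.gcd k : ℕ) : ZMod n) →
      ∑ r, lam r ^ l = (n : ℂ) ^ (l.gcd k) * rho g i 0 := by
  obtain ⟨M, lam, h1, h2⟩ := spec (E hk i.1 i.2) k hk (e (i.2 * i.1)) (e_ne _) (E_k hk i.1 i.2)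
  refine ⟨M, lam, ?_, ?_⟩
  · intro r
    rw [h1]
    unfold th
    rw [mul_comm]
  · intro l g h00 h10
    have hq : 0 < l.gcd k := Nat.gcd_pos_of_pos_right l hk
    rw [h2, E_trace, rho_apply, h00, h10, ← mul_assoc]
    have h3 : (n : ℂ) ^ (l.gcd k) * (n : ℂ)⁻¹ = (n : ℂ) ^ (l.gcd k - 1) := by
      obtain ⟨m, hm⟩ : ∃ m, l.gcd k = m + 1 := ⟨l.gcd k - 1, by omega⟩
      rw [hm, Nat.add_sub_cancel, pow_succ, mul_assoc, mul_inv_cancel₀ n_ne, mul_one]
    rw [h3]
    congr 1
    refine Finset.sum_congr rfl fun t _ => ?_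
    simp only [Prod.fst_zero, Prod.snd_zero, mul_zero, add_zero, zero_mul, sub_zero]

end neck

end Pool.Agent.Helper94.Wit
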